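import Pool.Agent.H121.GA.IfA
import Pool.Agent.H297.Y987.Net

/-! Task GA-NET (helper287, for helper121): from the tree to the next network, potentials clipped at
a level `b ≤ b0`. Port of `Pool/Agent/H297/Y987/Net.lean` (helper297). -/

set_option autoImplicit false
set_option linter.unusedSectionVars false

open scoped BigOperators InnerProductSpace Topology
open Filter MeasureTheory

namespace Pool.Agent.H287.GA

open Pool.Agent.H987.Y
open Pool.Agent.Y662.TR (LL Cf Mw dv hu clp hu_nonneg bdd_int_real)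
open Pool.Agent.TH369.AN (Rz)
open Pool.Agent.H987.Z (Rs Gr Fr gZ HV S_hutri S_green S_mom Bd hu_meas hu_bd hu_small)
open Pool.Agent.H582.Z987 (map_inj abs_le_of_between)
open Pool.Agent.H297.Y987 (ker_add ker_mono ks_net meas_kB bdK sg sg_pos sg_inj)
open Pool.Agent.H121.GA

/-! ### measurability -/

theorem meas_clpb (b : ℝ) : Measurable (clp b) := by
  unfold clp
  exact measurable_const.max (measurable_const.min measurable_id)

theorem meas_dgb {ι : Type} (b : ℝ) (x y : ι) : Measurable fun V : ι → ℝ => dgb b V x y := by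
  unfold dgb
  by_cases h : x = y
  · simp only [if_pos h]
    exact (meas_clpb b).comp (measurable_pi_apply x)
  · simp only [if_neg h]
    exact measurable_const

theorem dgb_shift {d : ℕ} (b : ℝ) (V : Lt d → ℝ) (w x y : Lt d) :
    dgb b V (x + w) (y + w) = dgb b (fun u => V (u + w)) x y := by
  unfold dgb
  by_cases h : x = y
  · rw [if_pos h, if_pos (by rw [h])]
  · rw [if_neg h, if_neg (fun h' => h (add_right_cancel h'))]

theorem meas_kNb {d N : ℕ} (b : ℝ) (t : Lt d → Lt d → ℝ) (x y : Lt d) :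
    Measurable fun ω : Om d N => kNb b t ω x y := by
  unfold kNb
  have h1 : Measurable fun p : Ph d N => t (x + ph p) (y + ph p) := measurable_of_countable _
  exact (h1.comp measurable_fst).add ((meas_dgb b x y).comp measurable_snd)

/-! ### translations -/

/-- the expectation at the point `X` -/
noncomputable def fX {d : ℕ} (b : ℝ) (t : Lt d → Lt d → ℝ) (ν : Measure ℝ) (z w : ℂ) (X : Lt d) : ℝ :=
  ∫ V, hu (Gr (Op fun x y => t x y + dgb b V x y) z X X) w ^ 2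
    ∂(Measure.infinitePi fun _ : Lt d => ν)

theorem fX_shift (hopb : S_opb) (heqv : S_eqv) (hmeas : S_meas) {d : ℕ} {b : ℝ} (hb : 0 ≤ b) (t : Lt d → Lt d → ℝ)
    (h : ℝ) (ht : Ker h t) (ν : Measure ℝ) [IsProbabilityMeasure ν] (z w : ℂ) (hz : z.im ≠ 0)
    (X v : Lt d) :
    ∫ V, hu (Gr (Op fun x y => t (x + v) (y + v) + dgb b V x y) z X X) w ^ 2
      ∂(Measure.infinitePi fun _ : Lt d => ν) = fX b t ν z w (X + v) := by
  have hsh : Ker h fun x y => t (x + v) (y + v) := (heqv _ _ (Equiv.addRight v) t h ht).1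
  have hk : ∀ V : Lt d → ℝ, Ker (h + b) fun x y => t (x + v) (y + v) + dgb b V x y := fun V =>
    (hopb.1 _ _ h b hsh hb V).1
  have hm : Measurable fun V : Lt d → ℝ =>
      Gr (Op fun x y => t (x + v) (y + v) + dgb b V x y) z X X :=
    hmeas _ _ (fun V : Lt d → ℝ => fun x y => t (x + v) (y + v) + dgb b V x y) (h + b) hk
      (fun x y => measurable_const.add (meas_dgb b x y)) z X X hz
  have hmp := map_inj (fun u : Lt d => u + v) (add_left_injective v) ν
  have hmm : Measurable fun V : Lt d → ℝ => fun u => V (u + v) :=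
    measurable_pi_lambda _ fun a => measurable_pi_apply _
  rw [← hmp, integral_map hmm.aemeasurable ((hu_meas hm w).pow_const 2).aestronglyMeasurable]
  unfold fX
  congr 1
  funext V
  have hk2 : Ker (h + b) fun x y => t x y + dgb b V x y := (hopb.1 _ _ h b ht hb V).1
  have h1 := (heqv _ _ (Equiv.addRight v) _ _ hk2).2 z X X hz
  have h2 : (fun x y => t (Equiv.addRight v x) (Equiv.addRight v y) +
      dgb b V (Equiv.addRight v x) (Equiv.addRight v y)) =
      fun x y => t (x + v) (y + v) + dgb b (fun u => V (u + v)) x y := by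
    funext x y
    rw [← dgb_shift]
    rfl
  rw [h2] at h1
  rw [h1]
  rfl

/-! ### the main estimate -/

set_option maxHeartbeats 1000000 in
theorem netb (hop : S_op) (hopb : S_opb) (heqv : S_eqv) (hmeas : S_meas) (htr : S_troot)
    (hsep : S_sep) (hcov : S_covb) (hfold : S_fold) (hg : S_green) (hmom : S_mom) (hut : S_hutri) :
    S_netb := by
  intro d g α β c C hF θ ε hθ hθ1 hε hε1 N R n t a h0 b0 hN ht hb0
  obtain ⟨K, hK0, hK⟩ := hut (ε / 2) (by linarith) (by linarith)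
  obtain ⟨ρ, hρ⟩ : ∃ ρ : ℝ, ρ = |α| + |β| + 1 := ⟨_, rfl⟩
  have hρ0 : 0 < ρ := by rw [hρ]; positivity
  have hh0 : 0 ≤ h0 := ht.ker.h0
  obtain ⟨h, hh⟩ : ∃ h : ℝ, h = h0 + (b0 + 1) + |a| * (n + 2) := ⟨_, rfl⟩
  have hhp : 0 < h := by rw [hh]; positivity
  obtain ⟨κ, hκ⟩ : ∃ κ : ℝ, κ = θ / (h + ρ) ^ 2 := ⟨_, rfl⟩
  have hκ0 : 0 < κ := by rw [hκ]; positivity
  obtain ⟨η', hη'⟩ : ∃ η' : ℝ, η' = min 1 (ε / (4 * K)) := ⟨_, rfl⟩
  have hη'0 : 0 < η' := by rw [hη']; positivity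
  have hη'1 : η' ≤ 1 := by rw [hη']; exact min_le_left _ _
  have hη'2 : K * η' ≤ ε / 4 := by
    have h5 : η' ≤ ε / (4 * K) := by rw [hη']; exact min_le_right _ _
    calc K * η' ≤ K * (ε / (4 * K)) := by gcongr
      _ = ε / 4 := by field_simp
  obtain ⟨δ, hδ⟩ : ∃ δ : ℝ, δ = κ * η' := ⟨_, rfl⟩
  have hδ0 : 0 < δ := by rw [hδ]; positivity
  have hq : δ ^ 2 / κ ^ 2 = η' ^ 2 := by
    rw [hδ]
    field_simp
  have hc0 := hF.c0
  obtain ⟨U, hU⟩ : ∃ U : ℝ, U = ((1 / θ + |C|) ^ 2 / (κ * c)) ^ 2 := ⟨_, rfl⟩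
  have hU0 : 0 ≤ U := by rw [hU]; positivity
  obtain ⟨η, hη⟩ : ∃ η : ℝ, η = ε / (4 * (U + 1)) := ⟨_, rfl⟩
  have hη0 : 0 < η := by rw [hη]; positivity
  have hηU : η * U ≤ ε / 4 := by
    rw [hη, div_mul_eq_mul_div, div_le_div_iff₀ (by positivity) (by norm_num)]
    nlinarith
  obtain ⟨t0, ht0⟩ := hmom θ ρ h δ hθ hρ0 hhp hδ0
  obtain ⟨N', R', σ, Γ, iΓ, Θ, hN', hNN', hΓ, hinv, hper, hrng, hΘm, hinj, hbs, havg⟩ :=
    hfold d N R t0 n η hN hη0
  have hks := ks_net a σ hinv N' R' hper hrng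
  refine ⟨N', R', σ, hN', hNN', hinv, hks, ?_⟩
  intro b hb hbb0 ν _ e he0 he1 hint z hz1 hz2 hz3 hz4
  have hz0 : 0 < z.im := hθ.trans_le hz3
  have hzρ : ‖z‖ ≤ ρ := by
    have h5 := Complex.norm_le_abs_re_add_abs_im z
    have h6 := abs_le_of_between hz1 hz2
    have h7 : |z.im| ≤ 1 := abs_le.2 ⟨by linarith, hz4⟩
    rw [hρ]
    linarith
  have hgc : c ≤ (g z).im := hF.lo z hz1 hz2 hz0 (by linarith)
  have hgi : 0 < (g z).im := hc0.trans_le hgc
  have hgC : ‖g z‖ ≤ |C| := (hF.up z hz1 hz2 hz0 (by linarith)).trans (le_abs_self C)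
  have hUb : ∀ w : ℂ, ‖w‖ ≤ 1 / θ → κ ≤ w.im → 0 ≤ hu w (g z) ^ 2 ∧ hu w (g z) ^ 2 ≤ U := by
    intro w hw1 hw2
    obtain ⟨b1, b2⟩ := hu_bd hκ0 hw1 hw2 hgi
    refine ⟨sq_nonneg _, ?_⟩
    rw [hU]
    refine pow_le_pow_left₀ b1 (b2.trans ?_) 2
    gcongr
  -- the new network
  obtain ⟨t', ht'⟩ : ∃ t' : Lt (d + 1) → Lt (d + 1) → ℝ,
    t' = fun x y => t x y + a * kσ σ x y := ⟨_, rfl⟩
  have hkt : Ker (h0 + |a| * (n + 1)) t' := by rw [ht']; exact ker_add ht.ker hks.ker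
  have hle : h0 + |a| * ((n : ℝ) + 1) + b ≤ h := by
    rw [hh]
    linarith only [abs_nonneg a, hbb0]
  have hkV : ∀ V : Lt (d + 1) → ℝ, Ker h fun x y => t' x y + dgb b V x y := fun V =>
    ker_mono (hopb.1 _ _ _ b hkt hb V).1 hle
  have hper' : ∀ x y v : Lt (d + 1), t' (x + (N' : ℤ) • v) (y + (N' : ℤ) • v) = t' x y := by
    intro x y v
    obtain ⟨q, hq⟩ := hNN'
    have e1 : (N' : ℤ) • v = (N : ℤ) • ((q : ℤ) • v) := by
      rw [hq, smul_smul]
      push_cast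
      rfl
    have e2 : a * kσ σ (x + (N' : ℤ) • v) (y + (N' : ℤ) • v) = a * kσ σ x y := hks.per x y v
    rw [ht']
    show t (x + (N' : ℤ) • v) (y + (N' : ℤ) • v) + a * kσ σ (x + (N' : ℤ) • v) (y + (N' : ℤ) • v) =
      t x y + a * kσ σ x y
    rw [e2, e1, ht.per]
  have hBX : ∀ X : Lt (d + 1), Bd (fun V : Lt (d + 1) → ℝ =>
      Gr (Op fun x y => t' x y + dgb b V x y) z X X) (1 / θ) κ := by
    intro X
    rw [hκ]
    exact bdK hop hmeas hg (fun V : Lt (d + 1) → ℝ => fun x y => t' x y + dgb b V x y) h hhp.le hkV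
      (fun x y => measurable_const.add (meas_dgb b x y)) hθ hz3 hzρ X
  obtain ⟨f, hf⟩ : ∃ f : Lt (d + 1) → ℝ, f = fX b t' ν z (g z) := ⟨_, rfl⟩
  have hf0 : ∀ X, 0 ≤ f X := fun X => by
    rw [hf]
    exact integral_nonneg fun V => sq_nonneg _
  have hfU : ∀ X, f X ≤ U := fun X => by
    rw [hf]
    unfold fX
    have h1 : ∫ V, hu (Gr (Op fun x y => t' x y + dgb b V x y) z X X) (g z) ^ 2
        ∂(Measure.infinitePi fun _ : Lt (d + 1) => ν) ≤
        ∫ _V : Lt (d + 1) → ℝ, U ∂(Measure.infinitePi fun _ : Lt (d + 1) => ν) :=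
      integral_mono ((hBX X).int2 hgi _) (integrable_const _) fun V =>
        (hUb _ ((hBX X).K V) ((hBX X).κ V)).2
    simpa using h1
  have hfper : ∀ x v : Lt (d + 1), f (x + (N' : ℤ) • v) = f x := by
    intro x v
    rw [hf, ← fX_shift hopb heqv hmeas hb t' _ hkt ν z (g z) hz0.ne' x]
    simp only [hper']
    rfl
  -- the left hand side
  obtain ⟨hPu', hPO', -, -⟩ := hsep (d + 1) N' n ν hN'
  have hkN' : ∀ ω : Om (d + 1) N', Ker h (kNb b t' ω) := by
    intro ω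
    have h1 := (heqv _ _ (Equiv.addRight (ph ω.1)) t' _ hkt).1
    exact ker_mono (hopb.1 _ _ _ b h1 hb ω.2).1 hle
  have hBN : Bd (fun ω : Om (d + 1) N' => Gr (Op (kNb b t' ω)) z 0 0) (1 / θ) κ := by
    rw [hκ]
    exact bdK hop hmeas hg (fun ω : Om (d + 1) N' => kNb b t' ω) h hhp.le hkN'
      (fun x y => meas_kNb b t' x y) hθ hz3 hzρ 0
  have hLHS : ∫ ω, hu (Gr (Op (kNb (N := N') b t' ω)) z 0 0) (g z) ^ 2 ∂(PO (d + 1) N' ν) =
      ∫ p, f (ph p) ∂(unif (Ph (d + 1) N')) := by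
    have hi := hBN.int2 hgi (PO (d + 1) N' ν)
    unfold PO at hi ⊢
    rw [integral_prod _ hi]
    congr 1
    funext p
    have h1 := fX_shift hopb heqv hmeas hb t' _ hkt ν z (g z) hz0.ne' 0 (ph p)
    rw [zero_add] at h1
    rw [hf, ← h1]
    rfl
  -- the tree
  obtain ⟨hPu, hPO, hmm, hmap⟩ := hsep (d + 1) N n ν hN
  have hkN : ∀ ω : Om (d + 1) N, Ker (h0 + b) (kNb b t ω) := by
    intro ω
    have h1 := (heqv _ _ (Equiv.addRight (ph ω.1)) t _ ht.ker).1
    exact (hopb.1 _ _ _ b h1 hb ω.2).1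
  have hkB : ∀ W : List (Ix (Lt (d + 1)) n) → Om (d + 1) N,
      Ker h (kB (kNb b t) true (0 : Lt (d + 1)) a W) := by
    intro W
    have h1 := (htr (Lt (d + 1)) (Om (d + 1) N) n (kNb b t) (h0 + b) hkN true 0 a W).1
    refine ker_mono h1 ?_
    rw [hh]
    linarith only [hbb0]
  have hBB : Bd (fun W : List (Ix (Lt (d + 1)) n) → Om (d + 1) N =>
      GB (kNb b t) true (0 : Lt (d + 1)) a W z) (1 / θ) κ := by
    rw [hκ]
    exact bdK hop hmeas hg (fun W : List (Ix (Lt (d + 1)) n) → Om (d + 1) N =>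
      kB (kNb b t) true (0 : Lt (d + 1)) a W) h hhp.le hkB
      (fun v v' => meas_kB (kNb b t) (fun x y => meas_kNb b t x y) true 0 a v v') hθ hz3 hzρ _
  obtain ⟨m, hm⟩ : ∃ m : (List (Ix (Lt (d + 1)) n) → Ph (d + 1) N) × (Vt (Lt (d + 1)) n → ℝ) →
      List (Ix (Lt (d + 1)) n) → Om (d + 1) N,
      m = fun q => fun l => (q.1 l, fun x => q.2 (l, x)) := ⟨_, rfl⟩
  rw [← hm] at hmm hmap
  have hBm := hBB.comp hmm
  obtain ⟨Q, hQ⟩ : ∃ Q, Q = Measure.infinitePi fun _ : List (Ix (Lt (d + 1)) n) =>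
    unif (Ph (d + 1) N) := ⟨_, rfl⟩
  have hQp : IsProbabilityMeasure Q := by rw [hQ]; infer_instance
  obtain ⟨P, hP⟩ : ∃ P, P = Measure.infinitePi fun _ : Vt (Lt (d + 1)) n => ν := ⟨_, rfl⟩
  have hPp : IsProbabilityMeasure P := by rw [hP]; infer_instance
  rw [← hQ, ← hP] at hmap
  rw [← hQ] at havg
  -- comparison for fixed phases
  have hpt : ∀ γ p, ∀ V : Vt (Lt (d + 1)) n → ℝ,
      hu (Gr (Op fun x y => t' x y + dgb b (fun u => V (sg R t0 σ (Θ γ p) u)) x y) z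
        (Θ γ p) (Θ γ p)) (g z) ^ 2 ≤
      (1 + 3 * ε / 4) * hu (GB (kNb b t) true (0 : Lt (d + 1)) a (m (p, V)) z) (g z) ^ 2 +
        ε / 4 := by
    intro γ p V
    have hcl : ‖Gr (Op fun x y => t' x y + dgb b (fun u => V (sg R t0 σ (Θ γ p) u)) x y) z
        (Θ γ p) (Θ γ p) - GB (kNb b t) true (0 : Lt (d + 1)) a (m (p, V)) z‖ ≤ δ := by
      obtain ⟨-, n1, r1, -, -⟩ := hop _ _ h (hkV fun u => V (sg R t0 σ (Θ γ p) u))
      obtain ⟨-, n2, r2, -, -⟩ := hop _ _ h (hkB (m (p, V)))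
      refine ht0 _ _ _ _ (Θ γ p) (([] : List (Ix (Lt (d + 1)) n)), (0 : Lt (d + 1))) r1.sa r2.sa
        n1 n2 ?_ z hz3 hzρ
      intro j hj
      have h1 := hcov (d + 1) N R n t0 t h0 a b σ (Θ γ p) (m (p, V))
        (fun u => V (sg R t0 σ (Θ γ p) u)) hb ht hinv (hinj γ p) (by
          intro l hl
          rw [hm]
          exact hbs γ p l hl) (by
          intro v hv
          rw [sg_pos R t0 σ (Θ γ p) (hinj γ p) v hv, hm]) j hj
      rw [ht']
      exact h1.symm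
    have l1 := (hBX (Θ γ p)).κ (fun u => V (sg R t0 σ (Θ γ p) u))
    have l2 := hBB.κ (m (p, V))
    obtain ⟨u0, u1⟩ := hu_small hκ0 l1 l2 hcl
    rw [hq] at u1
    have h8 := hK _ _ (g z) (hκ0.trans_le l1) (hκ0.trans_le l2) hgi
    have h9 : 0 ≤ hu (GB (kNb b t) true (0 : Lt (d + 1)) a (m (p, V)) z) (g z) ^ 2 := sq_nonneg _
    have h11 : hu (Gr (Op fun x y => t' x y + dgb b (fun u => V (sg R t0 σ (Θ γ p) u)) x y) z
        (Θ γ p) (Θ γ p)) (GB (kNb b t) true (0 : Lt (d + 1)) a (m (p, V)) z) ^ 2 ≤ η' := by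
      refine (pow_le_pow_left₀ u0 u1 2).trans ?_
      calc (η' ^ 2) ^ 2 = η' * η' ^ 3 := by ring
        _ ≤ η' * 1 := by
            gcongr
            exact pow_le_one₀ hη'0.le hη'1
        _ = η' := mul_one _
    have h10 := (mul_le_mul_of_nonneg_left h11 hK0.le).trans hη'2
    have h13 := mul_le_mul_of_nonneg_right h10
      (show 0 ≤ 1 + hu (GB (kNb b t) true (0 : Lt (d + 1)) a (m (p, V)) z) (g z) ^ 2 by linarith)
    linarith
  have hfp : ∀ γ p, f (Θ γ p) ≤ ∫ V, ((1 + 3 * ε / 4) *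
      hu (GB (kNb b t) true (0 : Lt (d + 1)) a (m (p, V)) z) (g z) ^ 2 + ε / 4) ∂P := by
    intro γ p
    have hmp := map_inj (sg R t0 σ (Θ γ p)) (sg_inj R t0 σ (Θ γ p)) ν
    have hsm : Measurable fun V : Vt (Lt (d + 1)) n → ℝ => fun u => V (sg R t0 σ (Θ γ p) u) :=
      measurable_pi_lambda _ fun a => measurable_pi_apply _
    rw [hf]
    unfold fX
    rw [← hmp, integral_map hsm.aemeasurable
      ((hu_meas (hBX (Θ γ p)).me (g z)).pow_const 2).aestronglyMeasurable, ← hP]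
    have hmpV : Measurable fun V : Vt (Lt (d + 1)) n → ℝ => m (p, V) :=
      hmm.comp (measurable_const.prodMk measurable_id)
    exact integral_mono (((hBX (Θ γ p)).comp hsm).int2 hgi P)
      ((((hBB.comp hmpV).int2 hgi P).const_mul _).add (integrable_const _)) (hpt γ p)
  have hI := hint z hz1 hz2 hz3 hz4
  have hJ : Integrable (fun q : (List (Ix (Lt (d + 1)) n) → Ph (d + 1) N) ×
      (Vt (Lt (d + 1)) n → ℝ) => (1 + 3 * ε / 4) *
      hu (GB (kNb b t) true (0 : Lt (d + 1)) a (m q) z) (g z) ^ 2 + ε / 4) (Q.prod P) :=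
    ((hBm.int2 hgi (Q.prod P)).const_mul _).add (integrable_const _)
  have hΓb : ∀ γ, ∫ p, f (Θ γ p) ∂Q ≤ (1 + 3 * ε / 4) * e + ε / 4 := by
    intro γ
    have hfm : Measurable f := measurable_of_countable _
    have i1 : Integrable (fun p => f (Θ γ p)) Q :=
      bdd_int_real Q _ (hfm.comp (hΘm γ)) U fun p => by
        rw [abs_of_nonneg (hf0 _)]
        exact hfU _
    have i2 := hJ.integral_prod_left
    have h1 := integral_mono i1 i2 (hfp γ)
    rw [← integral_prod _ hJ] at h1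
    refine h1.trans ?_
    have h4 : ∫ _q : (List (Ix (Lt (d + 1)) n) → Ph (d + 1) N) ×
        (Vt (Lt (d + 1)) n → ℝ), ε / 4 ∂(Q.prod P) = ε / 4 := by simp
    rw [integral_add ((hBm.int2 hgi (Q.prod P)).const_mul _) (integrable_const _),
      integral_const_mul, h4]
    have h2 : ∫ q, hu (GB (kNb b t) true (0 : Lt (d + 1)) a (m q) z) (g z) ^ 2 ∂(Q.prod P) =
        ∫ W, hu (GB (kNb b t) true (0 : Lt (d + 1)) a W z) (g z) ^ 2
          ∂(Measure.infinitePi fun _ : List (Ix (Lt (d + 1)) n) => PO (d + 1) N ν) := by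
      rw [← hmap, integral_map hmm.aemeasurable
        ((hu_meas hBB.me (g z)).pow_const 2).aestronglyMeasurable]
    rw [h2]
    have h3 : (1 + 3 * ε / 4) * ∫ W, hu (GB (kNb b t) true (0 : Lt (d + 1)) a W z) (g z) ^ 2
          ∂(Measure.infinitePi fun _ : List (Ix (Lt (d + 1)) n) => PO (d + 1) N ν) ≤
        (1 + 3 * ε / 4) * e := mul_le_mul_of_nonneg_left hI (by linarith)
    linarith
  have hA := havg f U hf0 hfU hfper
  have hcard : (0 : ℝ) < (Fintype.card Γ : ℝ) := by exact_mod_cast Fintype.card_pos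
  have hS : (∑ γ, ∫ p, f (Θ γ p) ∂Q) / (Fintype.card Γ : ℝ) ≤ (1 + 3 * ε / 4) * e + ε / 4 := by
    rw [div_le_iff₀ hcard]
    refine (Finset.sum_le_card_nsmul Finset.univ _ _ fun γ _ => hΓb γ).trans (le_of_eq ?_)
    rw [nsmul_eq_mul, Finset.card_univ, mul_comm]
  have hfin : ∫ p, f (ph p) ∂(unif (Ph (d + 1) N')) ≤ (1 + ε) * e + ε := by
    have h5 : 0 ≤ ε * e := mul_nonneg hε.le he0
    have h6 : (1 + 3 * ε / 4) * e = e + 3 / 4 * (ε * e) := by ring
    have h7 : (1 + ε) * e = e + ε * e := by ring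
    have h8 := hA.trans (add_le_add hηU hS)
    rw [h6] at h8
    rw [h7]
    linarith only [h8, h5, hε]
  rw [← hLHS, ht'] at hfin
  exact hfin

end Pool.Agent.H287.GA
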